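import Pool.Agent.H37.UMD.Stmts2

/-!
Ultimate matching, module LIP: cell means depend on the centre in a Lipschitz way.
-/

set_option autoImplicit false

open MeasureTheory ProbabilityTheory

namespace Pool.UMD

theorem LIP_exp_sub_one (y : ℝ) : |Real.exp y - 1| ≤ |y| * Real.exp |y| := by
  rcases le_or_gt 0 y with h | h
  · rw [abs_of_nonneg h, abs_of_nonneg (by linarith [Real.one_le_exp h])]
    have h1 := Real.add_one_le_exp (-y)
    have h2 : Real.exp (-y) * Real.exp y = 1 := by rw [← Real.exp_add]; simp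
    have h3 : (1 - y) * Real.exp y ≤ 1 := by
      rw [← h2]
      exact mul_le_mul_of_nonneg_right (by linarith) (Real.exp_pos y).le
    linarith
  · rw [abs_of_neg h, abs_of_nonpos (by
      have := Real.exp_le_one_iff.2 h.le
      linarith)]
    have h1 := Real.add_one_le_exp y
    have h2 : 1 ≤ Real.exp (-y) := Real.one_le_exp (by linarith)
    nlinarith

/-- the dominating function -/
noncomputable def LIP_G (x : ℝ) : ℝ := Real.exp 1 * (Real.exp (3 * x) + Real.exp (-3 * x))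

theorem LIP_G_meas : Measurable LIP_G := by
  unfold LIP_G
  fun_prop

theorem LIP_G_int : Integrable LIP_G g1 :=
  ((integrable_exp_mul_gaussianReal 3).add (integrable_exp_mul_gaussianReal (-3))).const_mul _

theorem LIP_G_ge (x : ℝ) : Real.exp (3 * |x| + 1) ≤ LIP_G x := by
  unfold LIP_G
  rw [add_comm, Real.exp_add]
  refine mul_le_mul_of_nonneg_left ?_ (Real.exp_pos _).le
  rcases abs_cases x with ⟨h, _⟩ | ⟨h, _⟩
  · rw [h]
    linarith [Real.exp_pos (-3 * x)]
  · rw [h, show 3 * -x = -3 * x by ring]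
    linarith [Real.exp_pos (3 * x)]

theorem LIP_G_exp {x y : ℝ} (h : y ≤ 3 * |x| + 1) : Real.exp y ≤ LIP_G x :=
  (Real.exp_le_exp.2 h).trans (LIP_G_ge x)

theorem LIP_G_one (x : ℝ) : 1 ≤ LIP_G x := by
  have := LIP_G_exp (x := x) (y := 0) (by positivity)
  rwa [Real.exp_zero] at this

theorem LIP_G_abs (x : ℝ) : |x| ≤ LIP_G x := by
  have h1 := Real.add_one_le_exp |x|
  have h2 := LIP_G_exp (x := x) (y := |x|) (by linarith [abs_nonneg x])
  linarith

theorem LIP_arg {t x : ℝ} (ht : |t| ≤ 1) : |t * x - t ^ 2 / 2| ≤ |t| * (|x| + 1 / 2) := by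
  have h1 : |t * x - t ^ 2 / 2| ≤ |t * x| + |t ^ 2 / 2| := abs_sub _ _
  have h2 : |t ^ 2 / 2| ≤ |t| * (1 / 2) := by
    rw [abs_div, abs_pow, pow_two, abs_of_pos (by norm_num : (0 : ℝ) < 2)]
    nlinarith [abs_nonneg t]
  rw [abs_mul] at h1
  linarith

theorem LIP_D {t x : ℝ} (ht : |t| ≤ 1) :
    |Real.exp (t * x - t ^ 2 / 2) - 1| ≤ |t| * LIP_G x ∧
    |x| * |Real.exp (t * x - t ^ 2 / 2) - 1| ≤ |t| * LIP_G x ∧
    Real.exp (t * x - t ^ 2 / 2) ≤ LIP_G x := by
  have h0 := LIP_exp_sub_one (t * x - t ^ 2 / 2)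
  have h1 := LIP_arg (t := t) (x := x) ht
  have h2 : |t * x - t ^ 2 / 2| ≤ |x| + 1 / 2 := by
    have := mul_le_mul_of_nonneg_right ht (by positivity : (0 : ℝ) ≤ |x| + 1 / 2)
    linarith
  have h3 : |Real.exp (t * x - t ^ 2 / 2) - 1| ≤ |t| * ((|x| + 1 / 2) * Real.exp (|x| + 1 / 2)) := by
    refine h0.trans ?_
    rw [← mul_assoc]
    exact mul_le_mul h1 (Real.exp_le_exp.2 h2) (Real.exp_pos _).le (by positivity)
  have h4 : |x| + 1 / 2 ≤ Real.exp (|x| - 1 / 2) := by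
    have := Real.add_one_le_exp (|x| - 1 / 2)
    linarith
  have h5 : |x| ≤ Real.exp |x| := by linarith [Real.add_one_le_exp |x|]
  refine ⟨h3.trans (mul_le_mul_of_nonneg_left ?_ (abs_nonneg t)), ?_, ?_⟩
  · calc (|x| + 1 / 2) * Real.exp (|x| + 1 / 2)
        ≤ Real.exp (|x| - 1 / 2) * Real.exp (|x| + 1 / 2) :=
          mul_le_mul_of_nonneg_right h4 (Real.exp_pos _).le
      _ = Real.exp (2 * |x|) := by rw [← Real.exp_add]; ring_nf
      _ ≤ LIP_G x := LIP_G_exp (by linarith [abs_nonneg x])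
  · calc |x| * |Real.exp (t * x - t ^ 2 / 2) - 1|
        ≤ |x| * (|t| * ((|x| + 1 / 2) * Real.exp (|x| + 1 / 2))) :=
          mul_le_mul_of_nonneg_left h3 (abs_nonneg x)
      _ = |t| * (|x| * ((|x| + 1 / 2) * Real.exp (|x| + 1 / 2))) := by ring
      _ ≤ |t| * LIP_G x := by
          refine mul_le_mul_of_nonneg_left ?_ (abs_nonneg t)
          calc |x| * ((|x| + 1 / 2) * Real.exp (|x| + 1 / 2))
              ≤ Real.exp |x| * (Real.exp (|x| - 1 / 2) * Real.exp (|x| + 1 / 2)) :=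
                mul_le_mul h5 (mul_le_mul_of_nonneg_right h4 (Real.exp_pos _).le)
                  (by positivity) (Real.exp_pos _).le
            _ = Real.exp (3 * |x|) := by rw [← Real.exp_add, ← Real.exp_add]; ring_nf
            _ ≤ LIP_G x := LIP_G_exp (by linarith [abs_nonneg x])
  · refine LIP_G_exp ?_
    have := le_abs_self (t * x - t ^ 2 / 2)
    linarith [abs_nonneg x]

/-- shift of the Gaussian -/
theorem LIP_shift (F : ℝ → ℝ) (t : ℝ) :
    ∫ x, F (x + t) ∂g1 = ∫ x, Real.exp (t * x - t ^ 2 / 2) * F x ∂g1 := by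
  rw [integral_gaussianReal_eq_integral_smul (by norm_num),
    integral_gaussianReal_eq_integral_smul (by norm_num)]
  have h1 : ∀ x : ℝ, gaussianPDFReal 0 1 x • F (x + t) =
      (fun y => gaussianPDFReal 0 1 (y - t) • F y) (x + t) := by
    intro x
    simp only [add_sub_cancel_right]
  simp only [h1]
  rw [integral_add_right_eq_self (fun y => gaussianPDFReal 0 1 (y - t) • F y) t]
  congr 1
  funext x
  simp only [smul_eq_mul]
  rw [← mul_assoc]
  congr 1
  have h2 : Real.exp (-(x - t - 0) ^ 2 / (2 * ((1 : NNReal) : ℝ))) =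
      Real.exp (-(x - 0) ^ 2 / (2 * ((1 : NNReal) : ℝ))) * Real.exp (t * x - t ^ 2 / 2) := by
    rw [← Real.exp_add]
    congr 1
    simp only [NNReal.coe_one]
    ring
  unfold gaussianPDFReal
  rw [h2, ← mul_assoc]

/-- the constant -/
noncomputable def LIP_c : ℝ := ∫ x, LIP_G x ∂g1

theorem LIP_c_one : 1 ≤ LIP_c := by
  have h : ∫ _x : ℝ, (1 : ℝ) ∂g1 ≤ LIP_c :=
    integral_mono (integrable_const _) LIP_G_int LIP_G_one
  simpa using h

theorem LIP_intG {f : ℝ → ℝ} {K : ℝ} (hf : Measurable f) (h : ∀ x, |f x| ≤ K * LIP_G x) :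
    Integrable f g1 :=
  (LIP_G_int.const_mul K).mono' hf.aestronglyMeasurable
    (Filter.Eventually.of_forall fun x => by rw [Real.norm_eq_abs]; exact h x)

theorem LIP_A {u : ℝ → ℝ} {M t : ℝ} (hu : Measurable u) (hM : ∀ x, |u x| ≤ M) (ht : |t| ≤ 1) :
    |∫ x, u (x + t) ∂g1 - ∫ x, u x ∂g1| ≤ M * |t| * LIP_c := by
  have hM0 : 0 ≤ M := (abs_nonneg _).trans (hM 0)
  have i1 : Integrable u g1 := LIP_intG (K := M) hu fun x => (hM x).trans (by
    nlinarith [LIP_G_one x])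
  have i2 : Integrable (fun x => Real.exp (t * x - t ^ 2 / 2) * u x) g1 :=
    LIP_intG (K := M) (by fun_prop) fun x => by
      rw [abs_mul, abs_of_pos (Real.exp_pos _), mul_comm]
      exact mul_le_mul (hM x) (LIP_D ht).2.2 (Real.exp_pos _).le hM0
  rw [LIP_shift, ← integral_sub i2 i1]
  have h1 : |∫ x, (Real.exp (t * x - t ^ 2 / 2) * u x - u x) ∂g1| ≤
      ∫ x, M * |t| * LIP_G x ∂g1 := by
    rw [← Real.norm_eq_abs]
    refine norm_integral_le_of_norm_le (LIP_G_int.const_mul _)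
      (Filter.Eventually.of_forall fun x => ?_)
    rw [Real.norm_eq_abs, show Real.exp (t * x - t ^ 2 / 2) * u x - u x =
      u x * (Real.exp (t * x - t ^ 2 / 2) - 1) by ring, abs_mul, mul_assoc]
    exact mul_le_mul (hM x) (LIP_D ht).1 (abs_nonneg _) hM0
  refine h1.trans (le_of_eq ?_)
  rw [integral_const_mul]
  rfl

theorem LIP_B {u : ℝ → ℝ} {M t : ℝ} (hu : Measurable u) (hM : ∀ x, |u x| ≤ M) (ht : |t| ≤ 1) :
    |∫ x, x * u (x + t) ∂g1 - ∫ x, x * u x ∂g1| ≤ 2 * M * |t| * LIP_c := by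
  have hM0 : 0 ≤ M := (abs_nonneg _).trans (hM 0)
  have h0 : ∫ x, x * u (x + t) ∂g1 = ∫ x, (fun y => (y - t) * u y) (x + t) ∂g1 := by
    congr 1
    funext x
    simp only [add_sub_cancel_right]
  have i1 : Integrable (fun x => x * u x) g1 := LIP_intG (K := M) (by fun_prop) fun x => by
    rw [abs_mul, mul_comm]
    exact mul_le_mul (hM x) (LIP_G_abs x) (abs_nonneg _) hM0
  have hb : ∀ x, |Real.exp (t * x - t ^ 2 / 2) * ((x - t) * u x) - x * u x| ≤
      2 * M * |t| * LIP_G x := by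
    intro x
    have e1 : Real.exp (t * x - t ^ 2 / 2) * ((x - t) * u x) - x * u x =
        u x * (x * (Real.exp (t * x - t ^ 2 / 2) - 1) - t * Real.exp (t * x - t ^ 2 / 2)) := by
      ring
    rw [e1, abs_mul]
    have e2 : |x * (Real.exp (t * x - t ^ 2 / 2) - 1) - t * Real.exp (t * x - t ^ 2 / 2)| ≤
        2 * |t| * LIP_G x := by
      refine (abs_sub _ _).trans ?_
      rw [abs_mul, abs_mul, abs_of_pos (Real.exp_pos (t * x - t ^ 2 / 2))]
      have h1 := (LIP_D (x := x) ht).2.1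
      have h2 := mul_le_mul_of_nonneg_left (LIP_D (x := x) ht).2.2 (abs_nonneg t)
      linarith
    calc |u x| * _ ≤ M * (2 * |t| * LIP_G x) := mul_le_mul (hM x) e2 (abs_nonneg _) hM0
      _ = 2 * M * |t| * LIP_G x := by ring
  have i3 : Integrable (fun x => Real.exp (t * x - t ^ 2 / 2) * ((x - t) * u x) - x * u x) g1 :=
    LIP_intG (by fun_prop) hb
  have i2 : Integrable (fun x => Real.exp (t * x - t ^ 2 / 2) * ((x - t) * u x)) g1 := by
    have := i3.add i1
    refine this.congr (Filter.Eventually.of_forall fun x => ?_)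
    simp
  rw [h0, LIP_shift (fun y => (y - t) * u y) t, ← integral_sub i2 i1]
  have h1 : |∫ x, (Real.exp (t * x - t ^ 2 / 2) * ((x - t) * u x) - x * u x) ∂g1| ≤
      ∫ x, 2 * M * |t| * LIP_G x ∂g1 := by
    rw [← Real.norm_eq_abs]
    exact norm_integral_le_of_norm_le (LIP_G_int.const_mul _)
      (Filter.Eventually.of_forall fun x => by rw [Real.norm_eq_abs]; exact hb x)
  refine h1.trans (le_of_eq ?_)
  rw [integral_const_mul]
  rfl

/-- integrability in two variables -/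
theorem LIP_int2 {f : ℝ × ℝ → ℝ} {K : ℝ} (hf : Measurable f)
    (h : ∀ z : ℝ × ℝ, |f z| ≤ K * (LIP_G z.1 * LIP_G z.2)) : Integrable f g2 := by
  have h1 : Integrable (fun z : ℝ × ℝ => LIP_G z.1 * LIP_G z.2) g2 :=
    LIP_G_int.mul_prod LIP_G_int
  exact (h1.const_mul K).mono' hf.aestronglyMeasurable
    (Filter.Eventually.of_forall fun x => by rw [Real.norm_eq_abs]; exact h x)

/-- the cell function -/
noncomputable def LIP_f (W : ℝ × ℝ → ℝ) (s a1 a2 : ℝ) (z : ℝ × ℝ) : ℝ :=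
  W (a1 + s * z.1, a2 + s * z.2)

section first

variable {W : ℝ × ℝ → ℝ} {M s a1 b1 a2 : ℝ}

theorem LIP_f_meas (hW : Measurable W) : Measurable (LIP_f W s a1 a2) := by
  unfold LIP_f
  exact hW.comp (by fun_prop)

/-- general estimate for a change of the first coordinate -/
theorem LIP_first {k : ℝ × ℝ → ℝ} (hk : Measurable k)
    (hkG : ∀ z : ℝ × ℝ, |k z| ≤ LIP_G z.1 * LIP_G z.2) (hW : Bd W M) {L : ℝ}
    (hin : ∀ y, |∫ x, k (x, y) * LIP_f W s a1 a2 (x, y) ∂g1 -
      ∫ x, k (x, y) * LIP_f W s b1 a2 (x, y) ∂g1| ≤ L * LIP_G y) :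
    |∫ z, k z * LIP_f W s a1 a2 z ∂g2 - ∫ z, k z * LIP_f W s b1 a2 z ∂g2| ≤ L * LIP_c := by
  have hM0 : 0 ≤ M := (abs_nonneg _).trans (hW.2 0)
  have hi : ∀ a, Integrable (fun z => k z * LIP_f W s a a2 z) g2 := fun a =>
    LIP_int2 (K := M) (hk.mul (LIP_f_meas hW.1)) fun z => by
      rw [abs_mul, mul_comm]
      exact mul_le_mul (hW.2 _) (hkG z) (abs_nonneg _) hM0
  rw [integral_prod_symm _ (hi a1), integral_prod_symm _ (hi b1),
    ← integral_sub (hi a1).integral_prod_right (hi b1).integral_prod_right]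
  have h1 : |∫ y, (∫ x, k (x, y) * LIP_f W s a1 a2 (x, y) ∂g1 -
      ∫ x, k (x, y) * LIP_f W s b1 a2 (x, y) ∂g1) ∂g1| ≤ ∫ y, L * LIP_G y ∂g1 := by
    rw [← Real.norm_eq_abs]
    exact norm_integral_le_of_norm_le (LIP_G_int.const_mul _)
      (Filter.Eventually.of_forall fun y => by rw [Real.norm_eq_abs]; exact hin y)
  refine h1.trans (le_of_eq ?_)
  rw [integral_const_mul]
  rfl

theorem LIP_first0 (hW : Bd W M) (hs : 1 ≤ s) (hab : |a1 - b1| ≤ 1) :
    |∫ z, LIP_f W s a1 a2 z ∂g2 - ∫ z, LIP_f W s b1 a2 z ∂g2| ≤ 2 * LIP_c * LIP_c * M / s ∧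
    |∫ z, z.1 * LIP_f W s a1 a2 z ∂g2 - ∫ z, z.1 * LIP_f W s b1 a2 z ∂g2| ≤
      2 * LIP_c * LIP_c * M / s ∧
    |∫ z, z.2 * LIP_f W s a1 a2 z ∂g2 - ∫ z, z.2 * LIP_f W s b1 a2 z ∂g2| ≤
      2 * LIP_c * LIP_c * M / s := by
  have hM0 : 0 ≤ M := (abs_nonneg _).trans (hW.2 0)
  have hs0 : 0 < s := by linarith
  have hc := LIP_c_one
  obtain ⟨t, ht⟩ : ∃ t, t = (a1 - b1) / s := ⟨_, rfl⟩
  have hts : |t| ≤ 1 / s := by
    rw [ht, abs_div, abs_of_pos hs0]
    exact div_le_div_of_nonneg_right hab hs0.le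
  have ht1 : |t| ≤ 1 := hts.trans (by rw [div_le_one hs0]; exact hs)
  have hst : ∀ x, a1 + s * x = b1 + s * (x + t) := by
    intro x
    rw [ht]
    field_simp
    ring
  -- the inner function
  have hu : ∀ y, Measurable (fun x => LIP_f W s b1 a2 (x, y)) := fun y =>
    (LIP_f_meas hW.1).comp (by fun_prop)
  have hub : ∀ y x, |(fun x => LIP_f W s b1 a2 (x, y)) x| ≤ M := fun y x => hW.2 _
  have hfe : ∀ x y, LIP_f W s a1 a2 (x, y) = (fun x => LIP_f W s b1 a2 (x, y)) (x + t) := by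
    intro x y
    simp only [LIP_f, hst x]
  have hA : ∀ y, |∫ x, LIP_f W s a1 a2 (x, y) ∂g1 - ∫ x, LIP_f W s b1 a2 (x, y) ∂g1| ≤
      M * |t| * LIP_c := by
    intro y
    have := LIP_A (hu y) (hub y) ht1
    simp only [← hfe] at this
    exact this
  have hB : ∀ y, |∫ x, x * LIP_f W s a1 a2 (x, y) ∂g1 - ∫ x, x * LIP_f W s b1 a2 (x, y) ∂g1| ≤
      2 * M * |t| * LIP_c := by
    intro y
    have := LIP_B (hu y) (hub y) ht1
    simp only [← hfe] at this
    exact this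
  have hL : 2 * M * |t| * LIP_c * LIP_c ≤ 2 * LIP_c * LIP_c * M / s := by
    have h1 : 2 * M * |t| * LIP_c * LIP_c = 2 * LIP_c * LIP_c * M * |t| := by ring
    rw [h1, div_eq_mul_one_div]
    exact mul_le_mul_of_nonneg_left hts (by positivity)
  have hK : 0 ≤ M * |t| * LIP_c := by positivity
  refine ⟨?_, ?_, ?_⟩
  · have := LIP_first (W := W) (M := M) (s := s) (a1 := a1) (b1 := b1) (a2 := a2)
      (k := fun _ => 1) measurable_const
      (fun z => by
        rw [abs_one]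
        nlinarith [LIP_G_one z.1, LIP_G_one z.2]) hW (L := 2 * M * |t| * LIP_c)
      (fun y => by
        simp only [one_mul]
        refine (hA y).trans ?_
        nlinarith [LIP_G_one y])
    simp only [one_mul] at this
    exact this.trans hL
  · have := LIP_first (W := W) (M := M) (s := s) (a1 := a1) (b1 := b1) (a2 := a2)
      (k := fun z => z.1) measurable_fst
      (fun z => by
        nlinarith [LIP_G_abs z.1, LIP_G_one z.1, LIP_G_one z.2]) hW (L := 2 * M * |t| * LIP_c)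
      (fun y => by
        refine (hB y).trans ?_
        nlinarith [LIP_G_one y])
    exact this.trans hL
  · have := LIP_first (W := W) (M := M) (s := s) (a1 := a1) (b1 := b1) (a2 := a2)
      (k := fun z => z.2) measurable_snd
      (fun z => by
        nlinarith [LIP_G_abs z.2, LIP_G_one z.1, LIP_G_one z.2, abs_nonneg z.2]) hW
      (L := 2 * M * |t| * LIP_c)
      (fun y => by
        simp only [integral_const_mul]
        rw [← mul_sub, abs_mul]
        calc |y| * |∫ x, LIP_f W s a1 a2 (x, y) ∂g1 - ∫ x, LIP_f W s b1 a2 (x, y) ∂g1|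
            ≤ LIP_G y * (M * |t| * LIP_c) :=
              mul_le_mul (LIP_G_abs y) (hA y) (abs_nonneg _) (by linarith [LIP_G_one y])
          _ ≤ 2 * M * |t| * LIP_c * LIP_G y := by nlinarith [LIP_G_one y])
    exact this.trans hL

end first

/-- swapping the coordinates -/
theorem LIP_swap (f : ℝ × ℝ → ℝ) : ∫ z, f z.swap ∂g2 = ∫ z, f z ∂g2 := by
  exact integral_prod_swap f

theorem sLip : SLip := by
  refine ⟨4 * LIP_c * LIP_c, by have := LIP_c_one; positivity, ?_⟩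
  intro W M hW s a b hs h1 h2
  have hM0 : 0 ≤ M := (abs_nonneg _).trans (hW.2 0)
  have e : ∀ (a : ℝ × ℝ) (z : ℝ × ℝ), W (a + (Mat.mk s 0 0 s).ap z) = LIP_f W s a.1 a.2 z := by
    intro a z
    simp [LIP_f, Mat.ap]
    congr 1
  simp only [mu, mz, e]
  -- first step: first coordinate
  obtain ⟨p1, p2, p3⟩ := LIP_first0 (W := W) (M := M) (s := s) (a1 := a.1) (b1 := b.1) (a2 := a.2)
    hW hs h1
  -- second step: second coordinate
  have hW' : Bd (fun z => W z.swap) M := ⟨hW.1.comp measurable_swap, fun z => hW.2 _⟩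
  obtain ⟨q1, q2, q3⟩ := LIP_first0 (W := fun z => W z.swap) (M := M) (s := s) (a1 := a.2)
    (b1 := b.2) (a2 := b.1) hW' hs h2
  have sw : ∀ (c : ℝ) (z : ℝ × ℝ), LIP_f (fun z => W z.swap) s c b.1 z =
      LIP_f W s b.1 c z.swap := fun c z => rfl
  have r1 : ∀ c, ∫ z, LIP_f (fun z => W z.swap) s c b.1 z ∂g2 = ∫ z, LIP_f W s b.1 c z ∂g2 := by
    intro c
    simp only [sw]
    exact LIP_swap (fun z => LIP_f W s b.1 c z)
  have r2 : ∀ c, ∫ z, z.1 * LIP_f (fun z => W z.swap) s c b.1 z ∂g2 =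
      ∫ z, z.2 * LIP_f W s b.1 c z ∂g2 := by
    intro c
    simp only [sw]
    exact LIP_swap (fun z => z.2 * LIP_f W s b.1 c z)
  have r3 : ∀ c, ∫ z, z.2 * LIP_f (fun z => W z.swap) s c b.1 z ∂g2 =
      ∫ z, z.1 * LIP_f W s b.1 c z ∂g2 := by
    intro c
    simp only [sw]
    exact LIP_swap (fun z => z.1 * LIP_f W s b.1 c z)
  rw [r1, r1] at q1
  rw [r2, r2] at q2
  rw [r3, r3] at q3
  have key : ∀ x y w : ℝ, |x - y| ≤ 2 * LIP_c * LIP_c * M / s →
      |y - w| ≤ 2 * LIP_c * LIP_c * M / s → |x - w| ≤ 4 * LIP_c * LIP_c * M / s := by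
    intro x y w hx hy
    have h := abs_sub_le x y w
    have h' : 4 * LIP_c * LIP_c * M / s = 2 * LIP_c * LIP_c * M / s + 2 * LIP_c * LIP_c * M / s := by
      ring
    rw [h']
    linarith
  exact ⟨key _ _ _ p1 q1, key _ _ _ p2 q3, key _ _ _ p3 q2⟩

end Pool.UMD
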